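import Mathlib
import Pool.Agent.H.MP_c9f8d2_co.B

set_option autoImplicit false

namespace Pool.Agent.Results.MP_c9f8d2_co.Theta

open Pool.Agent.H.MP_c9f8d2_co

theorem result (k m D : ℕ) (hk : 1 ≤ k) (hD : 3 ≤ D) :
    (∀ (n : ℕ) (G : SimpleGraph (Fin n)), SubKTree k G → (∀ v, (G.neighborSet v).ncard ≤ D) →
      colg (gpow G m) ≤ 6 * ((k + 1) ^ (2 * m) * (D + 1) ^ (m / 2)) + 2) ∧
    ∃ (n : ℕ) (G : SimpleGraph (Fin n)), SubKTree k G ∧ (∀ v, (G.neighborSet v).ncard ≤ D) ∧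
      (D - 1) ^ (m / 2) ≤ colg (gpow G m) := by
  classical
  have conv : ∀ (n : ℕ) (G : SimpleGraph (Fin n)) (v : Fin n) (i : Fintype (G.neighborSet v)),
      (G.neighborSet v).ncard = @SimpleGraph.degree _ G v i := by
    intro n G v i
    rw [← SimpleGraph.card_neighborSet_eq_degree, Set.ncard_eq_toFinset_card', Set.toFinset_card]
  constructor
  · intro n G h1 h2
    exact Nat.sInf_le (upper G k m D h1 fun v => by rw [← conv]; exact h2 v)
  · obtain ⟨n, G, h1, h2, h3⟩ := lower k m D hk hD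
    exact ⟨n, G, h1, fun v => by rw [conv]; exact h2 v, h3⟩

end Pool.Agent.Results.MP_c9f8d2_co.Theta
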